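import Pool.Agent.Y755.FK.Stm

/-! Job FK-ER (helper762): Euler products with one and two characters. -/

set_option autoImplicit false
set_option linter.unusedVariables false
set_option linter.unusedSectionVars false

open Finset Filter

open scoped Classical

namespace Pool.Agent.Y762.FK.ER

open Pool.Agent.Y755.FK

noncomputable section

/-- the local variable -/
def zz (x : ℕ → ℝ) (p : ℕ) (s : ℂ) : ℂ := (x p : ℂ) * (p : ℂ) ^ (-s)

/-- the local factors of the L-functions, inverted -/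
def uu (x y : ℕ → ℝ) (p : ℕ) (s : ℂ) : ℂ := (1 - zz x p s) * (1 - zz y p s)

/-- the local factor of the convergent product -/
def vv (x y : ℕ → ℝ) (n p : ℕ) (s : ℂ) : ℂ :=
  if p ∣ n then 0 else (1 + (zz x p s + zz y p s) / 2) ^ 2 * uu x y p s - 1

lemma rpow_bd {p : ℕ} (hp : p.Prime) : (p : ℝ) ^ (-(3 / 4) : ℝ) < 1 ∧ 0 < (p : ℝ) ^ (-(3 / 4) : ℝ) :=
  ⟨Real.rpow_lt_one_of_one_lt_of_neg (by exact_mod_cast hp.one_lt) (by norm_num),
    Real.rpow_pos_of_pos (by exact_mod_cast hp.pos) _⟩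

lemma zz_norm {x : ℕ → ℝ} {p : ℕ} (hp : p.Prime) (hx : |x p| ≤ 1) {s : ℂ} (hs : 3 / 4 < s.re) :
    ‖zz x p s‖ ≤ (p : ℝ) ^ (-(3 / 4) : ℝ) := by
  unfold zz
  rw [norm_mul, Complex.norm_real, Real.norm_eq_abs, Complex.norm_natCast_cpow_of_pos hp.pos]
  have h1 : (p : ℝ) ^ (-s).re ≤ (p : ℝ) ^ (-(3 / 4) : ℝ) := by
    apply Real.rpow_le_rpow_of_exponent_le (by exact_mod_cast hp.one_le)
    rw [Complex.neg_re]; linarith
  have h2 : 0 ≤ (p : ℝ) ^ (-s).re := by positivity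
  calc |x p| * (p : ℝ) ^ (-s).re ≤ 1 * (p : ℝ) ^ (-s).re := by gcongr
    _ ≤ _ := by rw [one_mul]; exact h1

lemma one_sub_ne {z : ℂ} (hz : ‖z‖ < 1) : 1 - z ≠ 0 := by
  intro h
  have : z = 1 := (sub_eq_zero.1 h).symm
  rw [this, norm_one] at hz
  exact lt_irrefl _ hz

lemma loc_bd (z w : ℂ) (r : ℝ) (hr : r ≤ 1) (hz : ‖z‖ ≤ r) (hw : ‖w‖ ≤ r) :
    ‖(1 + (z + w) / 2) ^ 2 * ((1 - z) * (1 - w)) - 1‖ ≤ 9 * r ^ 2 := by
  have hr0 : 0 ≤ r := le_trans (norm_nonneg _) hz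
  set a := z + w with ha
  set b := z * w with hb
  have hna : ‖a‖ ≤ 2 * r := le_trans (norm_add_le _ _) (by linarith)
  have hnb : ‖b‖ ≤ r ^ 2 := by
    rw [hb, norm_mul, sq]
    exact mul_le_mul hz hw (norm_nonneg _) hr0
  have e : (1 + a / 2) ^ 2 * ((1 - z) * (1 - w)) - 1 =
      b + (-(3 / 4) * a ^ 2 + (a * b + (-(1 / 4) * a ^ 3 + 1 / 4 * (a ^ 2 * b)))) := by
    rw [ha, hb]; ring
  rw [e]
  have h1 : ‖-(3 / 4) * a ^ 2‖ ≤ 3 / 4 * (2 * r) ^ 2 := by
    rw [norm_mul, norm_pow, norm_neg]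
    have : ‖(3 / 4 : ℂ)‖ = 3 / 4 := by norm_num
    rw [this]; gcongr
  have h2 : ‖a * b‖ ≤ 2 * r * r ^ 2 := by
    rw [norm_mul]; exact mul_le_mul hna hnb (norm_nonneg _) (by positivity)
  have h3 : ‖-(1 / 4) * a ^ 3‖ ≤ 1 / 4 * (2 * r) ^ 3 := by
    rw [norm_mul, norm_pow, norm_neg]
    have : ‖(1 / 4 : ℂ)‖ = 1 / 4 := by norm_num
    rw [this]; gcongr
  have h4 : ‖1 / 4 * (a ^ 2 * b)‖ ≤ 1 / 4 * ((2 * r) ^ 2 * r ^ 2) := by
    rw [norm_mul, norm_mul, norm_pow]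
    have : ‖(1 / 4 : ℂ)‖ = 1 / 4 := by norm_num
    rw [this]; gcongr
  have hr3 : r ^ 3 ≤ r ^ 2 := pow_le_pow_of_le_one hr0 hr (by norm_num)
  have hr4 : r ^ 4 ≤ r ^ 2 := pow_le_pow_of_le_one hr0 hr (by norm_num)
  have t1 := norm_add_le b (-(3 / 4) * a ^ 2 + (a * b + (-(1 / 4) * a ^ 3 + 1 / 4 * (a ^ 2 * b))))
  have t2 := norm_add_le (-(3 / 4) * a ^ 2) (a * b + (-(1 / 4) * a ^ 3 + 1 / 4 * (a ^ 2 * b)))
  have t3 := norm_add_le (a * b) (-(1 / 4) * a ^ 3 + 1 / 4 * (a ^ 2 * b))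
  have t4 := norm_add_le (-(1 / 4) * a ^ 3) (1 / 4 * (a ^ 2 * b))
  nlinarith

lemma zz_diff (x : ℕ → ℝ) {p : ℕ} (hp : p.Prime) (s : ℂ) : DifferentiableAt ℂ (zz x p) s := by
  unfold zz
  have : (p : ℂ) ≠ 0 := by exact_mod_cast hp.ne_zero
  exact ((differentiableAt_id.neg).const_cpow (Or.inl this)).const_mul _

lemma uu_diff (x y : ℕ → ℝ) {p : ℕ} (hp : p.Prime) (s : ℂ) : DifferentiableAt ℂ (uu x y p) s := by
  unfold uu
  exact ((differentiableAt_const _).sub (zz_diff x hp s)).mul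
    ((differentiableAt_const _).sub (zz_diff y hp s))

/-- the finite factor -/
def fin (x y : ℕ → ℝ) (n : ℕ) (s : ℂ) : ℂ :=
  ∏ p ∈ n.primeFactors.subtype Nat.Prime, uu x y p s

/-- the complete factor -/
def EE' (x y : ℕ → ℝ) (n : ℕ) (s : ℂ) : ℂ :=
  (∏' p : Nat.Primes, (1 + vv x y n p s)) * fin x y n s

lemma vv_prop {x y : ℕ → ℝ} (hx : ∀ p, |x p| ≤ 1) (hy : ∀ p, |y p| ≤ 1) (n p : ℕ) (hp : p.Prime)
    (s : ℂ) (hs : 3 / 4 < s.re) : DifferentiableAt ℂ (vv x y n p) s ∧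
    ‖vv x y n p s‖ ≤ 9 * (p : ℝ) ^ (-(3 / 2) : ℝ) ∧ 1 + vv x y n p s ≠ 0 := by
  have hb := rpow_bd hp
  have hzx := zz_norm hp (hx p) hs
  have hzy := zz_norm hp (hy p) hs
  by_cases hpn : p ∣ n
  · have e : vv x y n p = fun _ => 0 := by
      funext s; unfold vv; rw [if_pos hpn]
    rw [e]
    refine ⟨differentiableAt_const _, ?_, ?_⟩
    · simp only [norm_zero]; positivity
    · simp
  · have e : vv x y n p = fun s => (1 + (zz x p s + zz y p s) / 2) ^ 2 * uu x y p s - 1 := by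
      funext s; unfold vv; rw [if_neg hpn]
    rw [e]
    refine ⟨?_, ?_, ?_⟩
    · have h1 := zz_diff x hp s
      have h2 := zz_diff y hp s
      have h3 := uu_diff x y hp s
      exact (((((differentiableAt_const _).add ((h1.add h2).div_const 2)).pow 2).mul h3).sub_const 1)
    · have h := loc_bd (zz x p s) (zz y p s) _ hb.1.le hzx hzy
      have e2 : ((p : ℝ) ^ (-(3 / 4) : ℝ)) ^ 2 = (p : ℝ) ^ (-(3 / 2) : ℝ) := by
        rw [← Real.rpow_natCast, ← Real.rpow_mul (by positivity)]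
        norm_num
      rw [e2] at h
      exact h
    · have h1 : 1 - zz x p s ≠ 0 := one_sub_ne (lt_of_le_of_lt hzx hb.1)
      have h2 : 1 - zz y p s ≠ 0 := one_sub_ne (lt_of_le_of_lt hzy hb.1)
      have h3 : 1 + (zz x p s + zz y p s) / 2 ≠ 0 := by
        have h4 : ‖-((zz x p s + zz y p s) / 2)‖ < 1 := by
          rw [norm_neg, norm_div]
          have h5 := norm_add_le (zz x p s) (zz y p s)
          have h6 : ‖(2 : ℂ)‖ = 2 := by norm_num
          rw [h6]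
          linarith [hb.1]
        have := one_sub_ne h4
        rwa [sub_neg_eq_add] at this
      have h7 : 1 + ((1 + (zz x p s + zz y p s) / 2) ^ 2 * uu x y p s - 1) =
          (1 + (zz x p s + zz y p s) / 2) ^ 2 * uu x y p s := by ring
      simp only
      rw [h7]
      unfold uu
      exact mul_ne_zero (pow_ne_zero _ h3) (mul_ne_zero h1 h2)

lemma fin_prop {x y : ℕ → ℝ} (hx : ∀ p, |x p| ≤ 1) (hy : ∀ p, |y p| ≤ 1) (n : ℕ)
    (s : ℂ) (hs : 3 / 4 < s.re) : DifferentiableAt ℂ (fin x y n) s ∧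
    fin x y n s ≠ 0 ∧ ‖fin x y n s‖ ≤ 4 ^ om n := by
  refine ⟨?_, ?_, ?_⟩
  · have e : fin x y n = fun s => ∏ p ∈ n.primeFactors.subtype Nat.Prime, uu x y p s := rfl
    rw [e]
    exact DifferentiableAt.fun_finsetProd fun p _ => uu_diff x y p.2 s
  · unfold fin
    rw [prod_ne_zero_iff]
    intro p _
    have hb := rpow_bd p.2
    exact mul_ne_zero (one_sub_ne (lt_of_le_of_lt (zz_norm p.2 (hx p) hs) hb.1))
      (one_sub_ne (lt_of_le_of_lt (zz_norm p.2 (hy p) hs) hb.1))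
  · unfold fin
    rw [norm_prod]
    have h1 : ∏ p ∈ n.primeFactors.subtype Nat.Prime, ‖uu x y p s‖ ≤
        ∏ _p ∈ n.primeFactors.subtype Nat.Prime, (4 : ℝ) := by
      refine prod_le_prod (fun p _ => norm_nonneg _) fun p _ => ?_
      have hb := rpow_bd p.2
      have h1 := zz_norm p.2 (hx p) hs
      have h2 := zz_norm p.2 (hy p) hs
      unfold uu
      rw [norm_mul]
      have h3 : ‖1 - zz x p s‖ ≤ 2 := by
        refine le_trans (norm_sub_le _ _) ?_
        rw [norm_one]; linarith [hb.1]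
      have h4 : ‖1 - zz y p s‖ ≤ 2 := by
        refine le_trans (norm_sub_le _ _) ?_
        rw [norm_one]; linarith [hb.1]
      calc _ ≤ (2 : ℝ) * 2 := mul_le_mul h3 h4 (norm_nonneg _) (by norm_num)
        _ = 4 := by norm_num
    refine le_trans h1 ?_
    rw [prod_const]
    refine pow_le_pow_right₀ (by norm_num) ?_
    rw [card_subtype]
    exact card_filter_le _ _

lemma mainE (hEP : S_EP) : ∃ C : ℝ, ∀ (x y : ℕ → ℝ) (n : ℕ), (∀ p, |x p| ≤ 1) →
    (∀ p, |y p| ≤ 1) → ∀ s : ℂ, 3 / 4 < s.re → DifferentiableAt ℂ (EE' x y n) s ∧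
      EE' x y n s ≠ 0 ∧ ‖EE' x y n s‖ ≤ C * 4 ^ om n := by
  obtain ⟨C, hC⟩ := hEP 9
  refine ⟨C, fun x y n hx hy s hs => ?_⟩
  obtain ⟨-, h2, h3, h4⟩ := hC (vv x y n) (fun p hp s hs => vv_prop hx hy n p hp s hs) s hs
  obtain ⟨g1, g2, g3⟩ := fin_prop hx hy n s hs
  refine ⟨?_, ?_, ?_⟩
  · have e : EE' x y n = fun s => (∏' p : Nat.Primes, (1 + vv x y n p s)) * fin x y n s := rfl
    rw [e]
    exact h2.mul g1
  · exact mul_ne_zero h3 g2
  · unfold EE'
    rw [norm_mul]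
    exact mul_le_mul h4 g3 (norm_nonneg _) ((norm_nonneg _).trans h4)

lemma mainL (hEP : S_EP) (x y : ℕ → ℝ) (n : ℕ) (hn : 1 ≤ n) (hx : ∀ p, |x p| ≤ 1)
    (hy : ∀ p, |y p| ≤ 1) (s : ℂ) (hs : 1 < s.re) (L L' A : ℂ)
    (hA : HasProd (fun p : Nat.Primes => 1 + (if (p : ℕ) ∣ n then 0 else
      (zz x p s + zz y p s) / 2)) A)
    (hL : HasProd (fun p : Nat.Primes => (1 - zz x p s)⁻¹) L)
    (hL' : HasProd (fun p : Nat.Primes => (1 - zz y p s)⁻¹) L') :
    A ^ 2 = L * L' * EE' x y n s := by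
  obtain ⟨C, hC⟩ := hEP 9
  have hs' : 3 / 4 < s.re := by linarith
  obtain ⟨h1, -, -, -⟩ := hC (vv x y n) (fun p hp s hs => vv_prop hx hy n p hp s hs) s hs'
  have hV := h1.hasProd
  have hF : HasProd (fun p : Nat.Primes => if (p : ℕ) ∣ n then uu x y p s else 1)
      (fin x y n s) := by
    have e : fin x y n s = ∏ p ∈ n.primeFactors.subtype Nat.Prime,
        (if (p : ℕ) ∣ n then uu x y p s else 1) := by
      unfold fin
      refine prod_congr rfl fun p hp => ?_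
      rw [mem_subtype] at hp
      rw [if_pos (Nat.dvd_of_mem_primeFactors hp)]
    rw [e]
    refine hasProd_prod_of_ne_finset_one fun p hp => ?_
    rw [if_neg]
    intro hd
    exact hp (mem_subtype.2 (Nat.mem_primeFactors.2 ⟨p.2, hd, by omega⟩))
  have hR := ((hL.mul hL').mul hV).mul hF
  have hA2 := hA.mul hA
  have e : (fun p : Nat.Primes => (1 + (if (p : ℕ) ∣ n then 0 else
      (zz x p s + zz y p s) / 2)) * (1 + (if (p : ℕ) ∣ n then 0 else
      (zz x p s + zz y p s) / 2))) = fun p : Nat.Primes =>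
      (1 - zz x p s)⁻¹ * (1 - zz y p s)⁻¹ * (1 + vv x y n p s) *
        (if (p : ℕ) ∣ n then uu x y p s else 1) := by
    funext p
    have hb := rpow_bd p.2
    have h2 : 1 - zz x p s ≠ 0 := one_sub_ne (lt_of_le_of_lt (zz_norm p.2 (hx p) hs') hb.1)
    have h3 : 1 - zz y p s ≠ 0 := one_sub_ne (lt_of_le_of_lt (zz_norm p.2 (hy p) hs') hb.1)
    unfold vv uu
    split_ifs with hd
    · field_simp
      ring
    · field_simp
      ring
  rw [e] at hA2
  have h := hA2.unique hR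
  rw [sq, h]
  unfold EE'
  ring

/-! ### Euler products of multiplicative functions supported on squarefree numbers -/

lemma euler (c : ℕ → ℝ) (h1 : c 1 = 1) (hm : ∀ k l, Nat.Coprime k l → c (k * l) = c k * c l)
    (hp : ∀ p e, p.Prime → 2 ≤ e → c (p ^ e) = 0) (hb : ∀ k, |c k| ≤ 1) (s : ℂ) (hs : 1 < s.re) :
    LSeriesSummable (fun k => (c k : ℂ)) s ∧
    HasProd (fun p : Nat.Primes => 1 + (c p : ℂ) * (p : ℂ) ^ (-s))
      (LSeries (fun k => (c k : ℂ)) s) := by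
  have hsum : LSeriesSummable (fun k => (c k : ℂ)) s := by
    refine LSeriesSummable_of_bounded_of_one_lt_re (m := 1) (fun n _ => ?_) hs
    rw [Complex.norm_real, Real.norm_eq_abs]
    exact hb n
  refine ⟨hsum, ?_⟩
  set f : ℕ → ℂ := LSeries.term (fun k => (c k : ℂ)) s with hf
  have hf0 : f 0 = 0 := LSeries.term_zero _ _
  have hfn : ∀ n : ℕ, n ≠ 0 → f n = (c n : ℂ) * (n : ℂ) ^ (-s) := by
    intro n hn
    rw [hf, LSeries.term_of_ne_zero hn, Complex.cpow_neg, div_eq_mul_inv]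
  have hf1 : f 1 = 1 := by
    rw [hfn 1 one_ne_zero, h1]; simp
  have hmul : ∀ {m n : ℕ}, Nat.Coprime m n → f (m * n) = f m * f n := by
    intro m n hmn
    rcases Nat.eq_zero_or_pos m with rfl | hm0
    · rw [zero_mul, hf0, zero_mul]
    rcases Nat.eq_zero_or_pos n with rfl | hn0
    · rw [mul_zero, hf0, mul_zero]
    rw [hfn m hm0.ne', hfn n hn0.ne', hfn (m * n) (Nat.mul_pos hm0 hn0).ne', hm m n hmn]
    push_cast
    rw [Complex.natCast_mul_natCast_cpow]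
    ring
  have h := EulerProduct.eulerProduct_hasProd hf1 hmul (hsum.norm) hf0
  have e : (fun p : Nat.Primes => 1 + (c p : ℂ) * (p : ℂ) ^ (-s)) =
      fun p : Nat.Primes => ∑' e : ℕ, f ((p : ℕ) ^ e) := by
    funext p
    rw [tsum_eq_sum (s := range 2)]
    · rw [sum_range_succ, sum_range_one, pow_zero, pow_one, hf1, hfn _ p.2.ne_zero]
    · intro e he
      rw [mem_range, not_lt] at he
      rw [hfn _ (pow_ne_zero _ p.2.ne_zero), hp _ _ p.2 he]
      simp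
  rw [e]
  exact h

/-- the values of the symbol at the primes -/
def xx (D : ℤ) (p : ℕ) : ℝ := if p = 2 then 0 else J D p

lemma J_abs (D : ℤ) (k : ℕ) : |J D k| ≤ 1 := by
  unfold J
  rcases jacobiSym.trichotomy D k with h | h | h <;> rw [h] <;> simp

lemma xx_abs (D : ℤ) (p : ℕ) : |xx D p| ≤ 1 := by
  unfold xx
  split_ifs
  · simp
  · exact J_abs D p

lemma om_mul {k l : ℕ} (h : Nat.Coprime k l) : om (k * l) = om k + om l := by
  unfold om
  rw [h.primeFactors_mul, card_union_of_disjoint h.disjoint_primeFactors]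

lemma osf_mul {k l : ℕ} (h : Nat.Coprime k l) : osf (k * l) ↔ osf k ∧ osf l := by
  unfold osf
  rw [Nat.odd_mul, Nat.squarefree_mul h]
  tauto

lemma not_osf_pow {p e : ℕ} (hp : p.Prime) (he : 2 ≤ e) : ¬ osf (p ^ e) := by
  rintro ⟨-, h⟩
  have h1 : p * p ∣ p ^ e := by
    rw [← sq]; exact pow_dvd_pow p he
  exact hp.one_lt.ne' (Nat.isUnit_iff.1 (h p h1))

lemma J_mul (D : ℤ) {k l : ℕ} (hk : k ≠ 0) (hl : l ≠ 0) : J D (k * l) = J D k * J D l := by
  unfold J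
  rw [jacobiSym.mul_right' D hk hl]
  push_cast
  ring

/-- a general multiplicative function -/
def gc (g : ℕ → ℝ) (n k : ℕ) : ℝ := if osf k ∧ Nat.Coprime k n then (1 / 2 : ℝ) ^ om k * g k else 0

lemma gc_euler (g : ℕ → ℝ) (n : ℕ) (g1 : g 1 = 1)
    (gm : ∀ k l, k ≠ 0 → l ≠ 0 → Nat.Coprime k l → g (k * l) = g k * g l)
    (gb : ∀ k, Squarefree k → |g k| ≤ 2 ^ om k) (s : ℂ) (hs : 1 < s.re) :
    LSeriesSummable (fun k => (gc g n k : ℂ)) s ∧
    HasProd (fun p : Nat.Primes => 1 + (gc g n p : ℂ) * (p : ℂ) ^ (-s))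
      (LSeries (fun k => (gc g n k : ℂ)) s) := by
  refine euler (gc g n) ?_ ?_ ?_ ?_ s hs
  · unfold gc
    rw [if_pos ⟨⟨odd_one, squarefree_one⟩, Nat.coprime_one_left n⟩, g1]
    unfold om
    simp
  · intro k l hkl
    unfold gc
    by_cases hk : osf k ∧ Nat.Coprime k n
    · by_cases hl : osf l ∧ Nat.Coprime l n
      · have hk0 : k ≠ 0 := by rintro rfl; exact absurd hk.1.2 not_squarefree_zero
        have hl0 : l ≠ 0 := by rintro rfl; exact absurd hl.1.2 not_squarefree_zero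
        rw [if_pos hk, if_pos hl, if_pos ⟨(osf_mul hkl).2 ⟨hk.1, hl.1⟩,
          Nat.coprime_mul_iff_left.2 ⟨hk.2, hl.2⟩⟩, om_mul hkl, gm k l hk0 hl0 hkl, pow_add]
        ring
      · rw [if_neg hl, mul_zero, if_neg]
        rintro ⟨h1, h2⟩
        exact hl ⟨((osf_mul hkl).1 h1).2, (Nat.coprime_mul_iff_left.1 h2).2⟩
    · rw [if_neg hk, zero_mul, if_neg]
      rintro ⟨h1, h2⟩
      exact hk ⟨((osf_mul hkl).1 h1).1, (Nat.coprime_mul_iff_left.1 h2).1⟩
  · intro p e hp he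
    unfold gc
    rw [if_neg]
    rintro ⟨h1, -⟩
    exact not_osf_pow hp he h1
  · intro k
    unfold gc
    split_ifs with h
    · rw [abs_mul, abs_of_pos (by positivity : (0 : ℝ) < (1 / 2 : ℝ) ^ om k)]
      calc (1 / 2 : ℝ) ^ om k * |g k| ≤ (1 / 2 : ℝ) ^ om k * 2 ^ om k :=
            mul_le_mul_of_nonneg_left (gb k h.1.2) (by positivity)
        _ = 1 := by rw [← mul_pow]; norm_num
    · simp

lemma gc_prime (g : ℕ → ℝ) (n : ℕ) {p : ℕ} (hp : p.Prime) :
    gc g n p = if p ∣ n then 0 else (if p = 2 then 0 else 1 / 2 * g p) := by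
  unfold gc
  have hom : om p = 1 := by
    unfold om; rw [hp.primeFactors]; simp
  by_cases hd : p ∣ n
  · rw [if_pos hd, if_neg]
    rintro ⟨-, h⟩
    exact (Nat.Prime.coprime_iff_not_dvd hp).1 h hd
  · rw [if_neg hd]
    by_cases h2 : p = 2
    · rw [if_pos h2, if_neg]
      rintro ⟨⟨h, -⟩, -⟩
      rw [h2] at h
      exact absurd h (by decide)
    · rw [if_neg h2, if_pos ⟨⟨hp.odd_of_ne_two h2, hp.squarefree⟩,
        (Nat.Prime.coprime_iff_not_dvd hp).2 hd⟩, hom, pow_one]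

lemma chi_prod {D : ℤ} {q : ℕ} {χ : DirichletCharacter ℂ q} (h : IsChi D q χ) [NeZero q] (s : ℂ)
    (hs : 1 < s.re) : HasProd (fun p : Nat.Primes => (1 - zz (xx D) p s)⁻¹)
      (DirichletCharacter.LFunction χ s) := by
  rw [DirichletCharacter.LFunction_eq_LSeries χ hs]
  have h1 := DirichletCharacter.LSeries_eulerProduct_hasProd χ hs
  have e : (fun p : Nat.Primes => (1 - zz (xx D) p s)⁻¹) =
      fun p : Nat.Primes => (1 - χ ((p : ℕ) : ZMod q) * (p : ℂ) ^ (-s))⁻¹ := by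
    funext p
    unfold zz xx
    split_ifs with h2
    · rw [h.2 p (by rw [h2]; decide)]
      simp
    · rw [h.1 p (p.2.odd_of_ne_two h2)]
  rw [e]
  exact h1

theorem t_ER1 : S_EP → S_ER1 := by
  intro hEP
  obtain ⟨C, hC⟩ := mainE hEP
  refine ⟨C, fun D n hD hn => ⟨EE' (xx D) (fun _ => 0) n, fun s hs =>
    hC (xx D) (fun _ => 0) n (xx_abs D) (by simp) s hs, ?_⟩⟩
  intro q _ χ hχ s hs
  have hcs : (fun k => (cs1 D n k : ℂ)) = fun k => (gc (J D) n k : ℂ) := by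
    funext k; rfl
  rw [hcs]
  obtain ⟨h1, h2⟩ := gc_euler (J D) n (by unfold J; rw [jacobiSym.one_right]; simp)
    (fun k l hk hl _ => J_mul D hk hl) (fun k _ => le_trans (J_abs D k) (one_le_pow₀ one_le_two))
    s hs
  refine ⟨h1, ?_⟩
  have h3 := mainL hEP (xx D) (fun _ => 0) n hn (xx_abs D) (by simp) s hs
    (DirichletCharacter.LFunction χ s) 1 (LSeries (fun k => (gc (J D) n k : ℂ)) s) ?_
    (chi_prod hχ s hs) ?_
  · rw [h3]; ring
  · have e : (fun p : Nat.Primes => 1 + (if (p : ℕ) ∣ n then 0 else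
        (zz (xx D) p s + zz (fun _ => 0) p s) / 2)) =
        fun p : Nat.Primes => 1 + (gc (J D) n p : ℂ) * (p : ℂ) ^ (-s) := by
      funext p
      rw [gc_prime _ _ p.2]
      unfold zz xx
      split_ifs <;> push_cast <;> ring
    rw [e]
    exact h2
  · have e : (fun p : Nat.Primes => (1 - zz (fun _ => 0) p s)⁻¹) = fun _ => 1 := by
      funext p; unfold zz; simp
    rw [e]
    exact hasProd_one

/-! ### two characters -/

/-- the symbol as an arithmetic function -/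
def af (D : ℤ) : ArithmeticFunction ℝ := ⟨fun k => if k = 0 then 0 else J D k, by simp⟩

lemma af_mult (D : ℤ) : (af D).IsMultiplicative := by
  rw [ArithmeticFunction.IsMultiplicative.iff_ne_zero]
  refine ⟨?_, ?_⟩
  · show (if (1 : ℕ) = 0 then (0 : ℝ) else J D 1) = 1
    rw [if_neg one_ne_zero]
    unfold J; rw [jacobiSym.one_right]; simp
  · intro k l hk hl _
    show (if k * l = 0 then (0 : ℝ) else J D (k * l)) =
      (if k = 0 then (0 : ℝ) else J D k) * (if l = 0 then (0 : ℝ) else J D l)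
    rw [if_neg hk, if_neg hl, if_neg (mul_ne_zero hk hl), J_mul D hk hl]

/-- the inner sum -/
def gg (D D' : ℤ) (k : ℕ) : ℝ := ∑ a ∈ k.divisors, J D a * J D' (k / a)

lemma gg_eq (D D' : ℤ) (k : ℕ) : gg D D' k = (af D * af D') k := by
  rw [ArithmeticFunction.mul_apply]
  rw [Nat.sum_divisorsAntidiagonal (fun a b => af D a * af D' b)]
  unfold gg
  refine sum_congr rfl fun a ha => ?_
  have ha0 : a ≠ 0 := (Nat.pos_of_mem_divisors ha).ne'
  have hk0 : k / a ≠ 0 :=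
    (Nat.div_pos (Nat.divisor_le ha) (Nat.pos_of_mem_divisors ha)).ne'
  show _ = (if a = 0 then (0 : ℝ) else J D a) * (if k / a = 0 then (0 : ℝ) else J D' (k / a))
  rw [if_neg ha0, if_neg hk0]

lemma gg_one (D D' : ℤ) : gg D D' 1 = 1 := by
  rw [gg_eq]
  exact ((af_mult D).mul (af_mult D')).1

lemma gg_mul (D D' : ℤ) {k l : ℕ} (h : Nat.Coprime k l) :
    gg D D' (k * l) = gg D D' k * gg D D' l := by
  rw [gg_eq, gg_eq, gg_eq]
  exact ((af_mult D).mul (af_mult D')).2 h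

lemma gg_bd (D D' : ℤ) (k : ℕ) (hk : Squarefree k) : |gg D D' k| ≤ 2 ^ om k := by
  unfold gg
  refine le_trans (abs_sum_le_sum_abs _ _) ?_
  refine le_trans (sum_le_card_nsmul _ _ 1 fun a _ => ?_) ?_
  · rw [abs_mul]
    exact mul_le_one₀ (J_abs D a) (abs_nonneg _) (J_abs D' _)
  · rw [nsmul_eq_mul, mul_one]
    have h1 : k.divisors.card = 2 ^ om k := by
      rw [Nat.card_divisors hk.ne_zero]
      unfold om
      rw [← prod_const]
      refine prod_congr rfl fun p hp => ?_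
      rw [Nat.factorization_eq_one_of_squarefree hk (Nat.prime_of_mem_primeFactors hp)
        (Nat.dvd_of_mem_primeFactors hp)]
    rw [h1]; push_cast; exact le_rfl

lemma gg_prime (D D' : ℤ) {p : ℕ} (hp : p.Prime) : gg D D' p = J D p + J D' p := by
  unfold gg
  rw [hp.divisors, sum_pair hp.one_lt.ne, Nat.div_one, Nat.div_self hp.pos]
  have h1 : ∀ E : ℤ, J E 1 = 1 := by
    intro E; unfold J; rw [jacobiSym.one_right]; simp
  rw [h1, h1]
  ring

theorem t_ER2 : S_EP → S_ER2 := by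
  intro hEP
  obtain ⟨C, hC⟩ := mainE hEP
  refine ⟨C, fun D D' n hD hD' hn => ⟨EE' (xx D) (xx D') n, fun s hs =>
    hC (xx D) (xx D') n (xx_abs D) (xx_abs D') s hs, ?_⟩⟩
  intro q q' _ _ χ χ' hχ hχ' s hs
  have hcs : (fun k => (cs2 D D' n k : ℂ)) = fun k => (gc (gg D D') n k : ℂ) := by
    funext k; rfl
  rw [hcs]
  obtain ⟨h1, h2⟩ := gc_euler (gg D D') n (gg_one D D')
    (fun k l hk hl h => gg_mul D D' h) (gg_bd D D') s hs
  refine ⟨h1, ?_⟩
  refine mainL hEP (xx D) (xx D') n hn (xx_abs D) (xx_abs D') s hs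
    (DirichletCharacter.LFunction χ s) (DirichletCharacter.LFunction χ' s)
    (LSeries (fun k => (gc (gg D D') n k : ℂ)) s) ?_ (chi_prod hχ s hs) (chi_prod hχ' s hs)
  have e : (fun p : Nat.Primes => 1 + (if (p : ℕ) ∣ n then 0 else
      (zz (xx D) p s + zz (xx D') p s) / 2)) =
      fun p : Nat.Primes => 1 + (gc (gg D D') n p : ℂ) * (p : ℂ) ^ (-s) := by
    funext p
    rw [gc_prime _ _ p.2, gg_prime D D' p.2]
    unfold zz xx
    split_ifs <;> push_cast <;> ring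
  rw [e]
  exact h2

end

end Pool.Agent.Y762.FK.ER
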