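import Pool.Agent.Y762.FK.ER

/-! Job FK-NV (helper762): the counting series of the odd squarefree numbers. -/

set_option autoImplicit false
set_option linter.unusedVariables false

open Finset Filter Topology

open scoped Classical

namespace Pool.Agent.Y762.FK.NV

open Pool.Agent.Y755.FK Pool.Agent.Y762.FK.ER

noncomputable section

/-- the indicator function of the odd squarefree numbers -/
def cn (k : ℕ) : ℝ := if osf k then 1 else 0

lemma cn_euler (s : ℂ) (hs : 1 < s.re) : LSeriesSummable (fun k => (cn k : ℂ)) s ∧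
    HasProd (fun p : Nat.Primes => 1 + (cn p : ℂ) * (p : ℂ) ^ (-s))
      (LSeries (fun k => (cn k : ℂ)) s) := by
  refine euler cn ?_ ?_ ?_ ?_ s hs
  · unfold cn
    rw [if_pos ⟨odd_one, squarefree_one⟩]
  · intro k l hkl
    unfold cn
    by_cases hk : osf k <;> by_cases hl : osf l <;> simp [hk, hl, osf_mul hkl]
  · intro p e hp he
    unfold cn
    rw [if_neg (not_osf_pow hp he)]
  · intro k
    unfold cn
    split_ifs <;> simp

lemma cn_prime {p : ℕ} (hp : p.Prime) : cn p = if p = 2 then 0 else 1 := by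
  unfold cn
  by_cases h2 : p = 2
  · rw [if_pos h2, if_neg]
    rintro ⟨h, -⟩
    rw [h2] at h
    exact absurd h (by decide)
  · rw [if_neg h2, if_pos ⟨hp.odd_of_ne_two h2, hp.squarefree⟩]

/-- the identity of Dirichlet series -/
lemma cn_zeta (s : ℂ) (hs : 1 < s.re) : LSeries (fun k => (cn k : ℂ)) s *
    riemannZeta (2 * s) * (1 + (2 : ℂ) ^ (-s)) = riemannZeta s := by
  have h1 := (cn_euler s hs).2
  have h2s : 1 < (2 * s).re := by
    simp only [Complex.mul_re, Complex.re_ofNat, Complex.im_ofNat, zero_mul, sub_zero]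
    linarith
  have h2 := riemannZeta_eulerProduct_hasProd h2s
  obtain ⟨P2, hP2⟩ : ∃ P : Nat.Primes, (P : ℕ) = 2 := ⟨⟨2, Nat.prime_two⟩, rfl⟩
  have h3 : HasProd (fun p : Nat.Primes => if p = P2 then
      (1 + (2 : ℂ) ^ (-s)) else 1) (1 + (2 : ℂ) ^ (-s)) := by
    have h := hasProd_single (f := fun p : Nat.Primes => if p = P2
      then (1 + (2 : ℂ) ^ (-s)) else 1) P2 (by
        intro p hp; rw [if_neg hp])
    rw [if_pos rfl] at h
    exact h
  have h4 := (h1.mul h2).mul h3
  have h5 := riemannZeta_eulerProduct_hasProd hs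
  refine (h4.unique (?_ : HasProd _ (riemannZeta s)))
  have e : (fun p : Nat.Primes => (1 + (cn p : ℂ) * (p : ℂ) ^ (-s)) *
      (1 - (p : ℂ) ^ (-(2 * s)))⁻¹ * if p = P2 then
      (1 + (2 : ℂ) ^ (-s)) else 1) = fun p : Nat.Primes => (1 - (p : ℂ) ^ (-s))⁻¹ := by
    funext p
    have hp0 : (p : ℂ) ≠ 0 := by exact_mod_cast p.2.ne_zero
    have hsq : (p : ℂ) ^ (-(2 * s)) = ((p : ℂ) ^ (-s)) ^ 2 := by
      rw [← Complex.cpow_nat_mul]
      congr 1
      push_cast
      ring
    have hlt : ‖(p : ℂ) ^ (-s)‖ < 1 := by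
      rw [Complex.norm_natCast_cpow_of_pos p.2.pos]
      exact Real.rpow_lt_one_of_one_lt_of_neg (by exact_mod_cast p.2.one_lt)
        (by rw [Complex.neg_re]; linarith)
    have hm : 1 - (p : ℂ) ^ (-s) ≠ 0 := one_sub_ne hlt
    have hpl : 1 + (p : ℂ) ^ (-s) ≠ 0 := by
      have := one_sub_ne (z := -(p : ℂ) ^ (-s)) (by rwa [norm_neg])
      rwa [sub_neg_eq_add] at this
    have hfac : 1 - ((p : ℂ) ^ (-s)) ^ 2 = (1 - (p : ℂ) ^ (-s)) * (1 + (p : ℂ) ^ (-s)) := by ring
    rw [hsq, hfac, cn_prime p.2]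
    by_cases h2 : p = P2
    · have h2' : (p : ℕ) = 2 := by rw [h2, hP2]
      have h2c : (p : ℂ) = 2 := by rw [h2']; norm_num
      rw [if_pos h2, if_pos h2']
      rw [h2c] at hm hpl ⊢
      push_cast
      field_simp
      ring
    · have h2' : (p : ℕ) ≠ 2 := fun h => h2 (Subtype.ext (h.trans hP2.symm))
      rw [if_neg h2, if_neg h2']
      push_cast
      field_simp
  rw [e]
  exact h5

lemma DS_eq (c : ℕ → ℝ) (x : ℝ) : ((DS c x : ℝ) : ℂ) = LSeries (fun k => (c k : ℂ)) (1 + x) := by
  unfold DS LSeries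
  rw [Complex.ofReal_tsum]
  refine tsum_congr fun k => ?_
  by_cases hk : k = 0
  · rw [if_pos hk, hk, LSeries.term_zero]
    simp
  · rw [if_neg hk, LSeries.term_of_ne_zero hk]
    push_cast
    rw [Complex.ofReal_cpow (Nat.cast_nonneg k)]
    push_cast
    rw [Complex.cpow_neg]
    rfl

/-- `(s - 1) ζ(s)` -/
def GZ (s : ℂ) : ℂ := if s = 1 then 1 else (s - 1) * riemannZeta s

lemma GZ_diff : Differentiable ℂ GZ := by
  rw [← differentiableOn_univ]
  have h := (Complex.differentiableOn_compl_singleton_and_continuousAt_iff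
    (f := GZ) (s := Set.univ) (c := 1) univ_mem).1
  apply h
  constructor
  · intro s hs
    have hs1 : s ≠ 1 := by simpa using hs.2
    have e : GZ =ᶠ[𝓝 s] fun s => (s - 1) * riemannZeta s := by
      filter_upwards [isOpen_ne.mem_nhds hs1] with t ht
      unfold GZ
      rw [if_neg ht]
    have hd : DifferentiableAt ℂ (fun s => (s - 1) * riemannZeta s) s :=
      (differentiableAt_id.sub_const 1).mul (differentiableAt_riemannZeta hs1)
    exact (hd.congr_of_eventuallyEq e).differentiableWithinAt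
  · rw [continuousAt_iff_punctured_nhds]
    have h1 : GZ 1 = 1 := by unfold GZ; rw [if_pos rfl]
    rw [h1]
    refine riemannZeta_residue_one.congr' ?_
    filter_upwards [self_mem_nhdsWithin] with t ht
    have ht1 : t ≠ 1 := ht
    unfold GZ
    rw [if_neg ht1]

/-- the analytic function -/
def FV (z : ℂ) : ℂ := GZ (1 + z) / (riemannZeta (2 * (1 + z)) * (1 + (2 : ℂ) ^ (-(1 + z))))

lemma FV_analytic (x : ℝ) (hx : 0 ≤ x) : AnalyticAt ℂ FV x := by
  have hopen : IsOpen {z : ℂ | -(1 / 4) < z.re} := isOpen_lt continuous_const Complex.continuous_re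
  have hd : DifferentiableOn ℂ FV {z : ℂ | -(1 / 4) < z.re} := by
    intro z hz
    have hz' : -(1 / 4) < z.re := hz
    have hre : 1 < (2 * (1 + z)).re := by
      simp only [Complex.mul_re, Complex.re_ofNat, Complex.im_ofNat, zero_mul, sub_zero,
        Complex.add_re, Complex.one_re]
      linarith
    have hne1 : 2 * (1 + z) ≠ 1 := by
      intro h
      rw [h, Complex.one_re] at hre
      exact lt_irrefl _ hre
    have hzeta : riemannZeta (2 * (1 + z)) ≠ 0 := riemannZeta_ne_zero_of_one_lt_re hre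
    have hlt : ‖(2 : ℂ) ^ (-(1 + z))‖ < 1 := by
      have : (2 : ℂ) = ((2 : ℕ) : ℂ) := by norm_num
      rw [this, Complex.norm_natCast_cpow_of_pos (by norm_num)]
      exact Real.rpow_lt_one_of_one_lt_of_neg (by norm_num)
        (by simp only [Complex.neg_re, Complex.add_re, Complex.one_re]; linarith)
    have hpl : 1 + (2 : ℂ) ^ (-(1 + z)) ≠ 0 := by
      have := one_sub_ne (z := -(2 : ℂ) ^ (-(1 + z))) (by rwa [norm_neg])
      rwa [sub_neg_eq_add] at this
    have d1 : DifferentiableAt ℂ (fun z : ℂ => GZ (1 + z)) z :=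
      (GZ_diff (1 + z)).comp z ((differentiableAt_const _).add differentiableAt_id)
    have d2 : DifferentiableAt ℂ (fun z : ℂ => riemannZeta (2 * (1 + z))) z :=
      (differentiableAt_riemannZeta hne1).comp z
        (((differentiableAt_const _).add differentiableAt_id).const_mul 2)
    have d3 : DifferentiableAt ℂ (fun z : ℂ => 1 + (2 : ℂ) ^ (-(1 + z))) z :=
      (differentiableAt_const _).add
        ((((differentiableAt_const _).add differentiableAt_id).neg).const_cpow
          (Or.inl two_ne_zero))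
    exact (d1.div (d2.mul d3) (mul_ne_zero hzeta hpl)).differentiableWithinAt
  refine hd.analyticAt (hopen.mem_nhds ?_)
  show -(1 / 4) < (x : ℂ).re
  rw [Complex.ofReal_re]
  linarith

theorem t_NV : S_NV := by
  intro hE
  refine ⟨fun x => (FV x).re, ?_, ?_⟩
  · refine hE.ana _ fun x hx0 hx1 => ?_
    exact ((FV_analytic x hx0).contDiffAt).real_of_complex
  · intro x hx0 hx1
    have hs : 1 < (1 + (x : ℂ)).re := by simp [hx0]
    have h1 := cn_zeta (1 + x) hs
    have h2s : 1 < (2 * (1 + (x : ℂ))).re := by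
      simp only [Complex.mul_re, Complex.re_ofNat, Complex.im_ofNat, zero_mul, sub_zero,
        Complex.add_re, Complex.one_re, Complex.ofReal_re]
      linarith
    have hzeta : riemannZeta (2 * (1 + (x : ℂ))) ≠ 0 := riemannZeta_ne_zero_of_one_lt_re h2s
    have hlt : ‖(2 : ℂ) ^ (-(1 + (x : ℂ)))‖ < 1 := by
      have : (2 : ℂ) = ((2 : ℕ) : ℂ) := by norm_num
      rw [this, Complex.norm_natCast_cpow_of_pos (by norm_num)]
      exact Real.rpow_lt_one_of_one_lt_of_neg (by norm_num)
        (by simp only [Complex.neg_re, Complex.add_re, Complex.one_re, Complex.ofReal_re]; linarith)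
    have hpl : 1 + (2 : ℂ) ^ (-(1 + (x : ℂ))) ≠ 0 := by
      have := one_sub_ne (z := -(2 : ℂ) ^ (-(1 + (x : ℂ)))) (by rwa [norm_neg])
      rwa [sub_neg_eq_add] at this
    have h3 : ((NN x : ℝ) : ℂ) = LSeries (fun k => (cn k : ℂ)) (1 + x) := DS_eq cn x
    have hx0' : (x : ℂ) ≠ 0 := by exact_mod_cast hx0.ne'
    have h4 : FV x = ((x * NN x : ℝ) : ℂ) := by
      unfold FV GZ
      have hne : (1 : ℂ) + x ≠ 1 := by
        intro h; apply hx0'; simpa using h
      rw [if_neg hne, ← h1]
      push_cast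
      rw [h3]
      set A := LSeries (fun k => (cn k : ℂ)) (1 + x)
      set Z := riemannZeta (2 * (1 + (x : ℂ)))
      set W := 1 + (2 : ℂ) ^ (-(1 + (x : ℂ)))
      rw [div_eq_iff (mul_ne_zero hzeta hpl)]
      ring
    show NN x = (FV x).re / x
    rw [h4, Complex.ofReal_re]
    field_simp

end

end Pool.Agent.Y762.FK.NV
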